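import Pool.Agent.J4.H1.AR.Fin

/-!
# The Farrell-Jones class and Artin groups

Project AR of helper1 with helpers 20, 25, 30, 40, 42, 43, 55, 81.

`Sh M p` is the group with generators `s_b` (`b : B`), the braid relations of the Coxeter matrix `M`
(the label `0` stands for infinity) and the relations `s_b ^ p_b = 1`; for `p = 0` it is the Artin group of
`M`, for `p = 2` the Coxeter group. `Adm M p`: the exponents are even and constant along the odd labels.

Theorem. A Farrell-Jones class `C` which contains the finitely generated Coxeter groups contains `Sh M p`
if and only if it contains the groups `Sh M_X p_X` of the finite irreducible subsets `X` of `B` without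
infinite labels; the same holds for torsion-freeness. For Artin groups the sets with at least three elements
suffice.

The Coxeter group acts on the Bass-Serre tree of the splitting at an infinite label. Infinite cyclic subgroups
of the Coxeter group are treated by a ray of vertices which no reflection fixes twice, and by the
homomorphisms which kill the squares of the reflections outside the stabilizers of the vertices.
-/

set_option autoImplicit false

namespace Pool.Agent.Results.MP_8f66f0_al.ArtinGroups

open Pool.Agent.K7.H87.FJ6
open Pool.Agent.Y110.FJ (ClosedE)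
open Pool.Agent.J4.H1.AR.Fin (Irr)
open Pool.Agent.J4.H1.AR.Tfr (TF)

/-- the group of the set `X` of generators -/
abbrev Part {B : Type} (M : CoxeterMatrix B) (p : B → ℕ) (X : Set B) : Type :=
  Sh (pull M (Subtype.val : X → B) Subtype.val_injective) (p ∘ Subtype.val)

theorem result (C : ∀ (G : Type) [Group G], Prop) (hC : ClosedE C)
    (hW : ∀ (B : Type) [Finite B] (M : CoxeterMatrix B), C M.Group) (B : Type)
    (M : CoxeterMatrix B) (p : B → ℕ) (hp : Adm M p) :
    (C (Sh M p) ↔ ∀ X : Set B, X.Finite → 2 ≤ X.ncard → Irr M X → C (Part M p X)) ∧
    ((∀ b, p b = 0) →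
      (C (Sh M p) ↔ ∀ X : Set B, X.Finite → 3 ≤ X.ncard → Irr M X → C (Part M p X))) ∧
    (TF (Sh M p) ↔ ∀ X : Set B, X.Finite → Irr M X → TF (Part M p X)) :=
  Pool.Agent.J4.H1.AR.Fin.main hC hW M p hp

end Pool.Agent.Results.MP_8f66f0_al.ArtinGroups
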