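import Pool.Agent.J4.H41.GT.Fin

/-!
# `GL_2` of polynomial rings and of other rings with a degree function

`C` is any class of groups with the closure properties `ClosedE C` (subgroups, finite and free products,
overgroups of finite index, directed colimits, the extension criterion) which contains the metabelian
groups and satisfies `AcylF C`: a finitely generated group that acts on a tree without inversions, such
that for some `k` and `n` the pointwise stabilizers of the paths of length at least `k` have at most `n`
elements, is in `C` if the vertex stabilizers are in `C`. All this is known for the class of the groups
whose wreath products with finite groups satisfy the K- and L-theoretic Farrell-Jones conjecture with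
coefficients (`AcylF` is a theorem of Knopf, metabelian groups are a theorem of Wegner); this class also
contains the groups `GL_m(ℚ)` and `GL_m(𝔽_p(t))` (Rüping), and the Whitehead groups of its torsion-free
members vanish.

Let `R` be a commutative domain with a degree function: `deg (xy) = deg x + deg y` and
`deg (x + y) ≤ max (deg x) (deg y)` for nonzero `x`, `y`, `x + y`. Examples are the polynomial rings in any
number of variables with the total degree (or weighted degrees), all domains graded by the natural numbers,
and the rings of functions on a projective variety with poles along one prime divisor.

A group `Γ ≤ GL_2(R)` is in `C` if the groups of matrices of bounded degree in `SL_2(R) ∩ R^× Γ` are in `C`.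
If the nonzero elements of degree zero are units, `GL_2(R)` is in `C` if `R` has a homomorphism to a field
`L` with `SL_2(L)` in `C`. So for every field `k` the groups `GL_2(k[x_1, ..., x_n])` and `SL_2(k)` are
both in `C` or both not in `C`, and `GL_2(k[x_1, ..., x_n])` is a Farrell-Jones group if `k` is
algebraic over `ℚ` or over `𝔽_p(t)`; the Whitehead groups of its torsion-free subgroups vanish.

Outline of the proof.

* Minus the degree is (up to a factor) a discrete valuation `v` of the field of fractions `F`, and
  `GL_2(F)` acts on the tree of the maximal orders of `M_2(F)`. The elements of `R` with positive
  valuation are zero. So if `x` and `y` are matrices over `R` in the two orders of an edge, then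
  `tr(xy) = 0` if `y` is nilpotent, and `det(xy - yx) = 0`: if there is no nilpotent element, the
  matrices over `R` in the two orders commute.
* Two edges with a common vertex are called related if they contain (nonzero) commuting nilpotent matrices
  over `R`, or contain none but contain commuting matrices which are not scalar. This is an equivariant
  family of equivalence relations on the links; it defines cylinders (unions of edges), and the vertices and
  the cylinders form a tree. Edges with commuting nilpotent matrices lie in one cylinder, also
  if they are not neighbours.
* An element of `SL_2(R)` which fixes a path through six cylinders and is not scalar is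
  trace-orthogonal to nilpotent matrices in three different cylinders, because at a vertex between two
  cylinders one of the two edges of the path contains a nilpotent matrix (otherwise the element itself
  relates them). Two of these nilpotent matrices commute; so two of the cylinders coincide.
  So the action on the tree of cylinders is acylindrical.
* The stabilizer of a cylinder normalizes a line of matrices modulo the scalars, or it preserves an
  edge. The stabilizer of a vertex is of bounded degree; if the nonzero elements of degree zero are
  units, they form a field `k`, and either the matrices over `R` in the order
  form a `k`-algebra of dimension four, which embeds in `M_2(L)`, or the stabilizer is an abelian extension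
  of a metabelian group.
* The case of a finitely generated group `Γ ≤ GL_2(R)` is reduced to determinant one: a subgroup of finite
  index embeds in the product of `R^×` and of a group of matrices of determinant one.
-/

set_option autoImplicit false

namespace Pool.Agent.Results.MP_8f66f0_al.DegreeFunctionGLTwo

open Pool.Agent.Y110.FJ (ClosedE)
open Pool.Agent.N509.TX (AcylF)

/-- Let `C` be a class of groups as above, `R` a commutative domain with a degree function `deg`, and
`Γ` a group of invertible matrices of size two over `R`. Suppose that `C` contains the groups `H` of matrices
of determinant one and bounded degree each of whose elements is a product of a unit of `R` and an element of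
`Γ`, or that the nonzero elements of `R` of degree zero are units and there is a homomorphism from `R` to a
field `L` such that `SL_2(L)` is in `C`, or `L` is algebraic over a field `k₀` which is finite or for which
all groups `GL_m(k₀)` are in `C`. Then `Γ` is in `C`. -/
theorem result (C : ∀ (G : Type) [Group G], Prop) (hC : ClosedE C)
    (hM : ∀ (G : Type) [Group G], derivedSeries G 2 = ⊥ → C G) (hA : AcylF C)
    (R : Type) [CommRing R] [IsDomain R] (deg : R → ℕ)
    (hmul : ∀ x y : R, x ≠ 0 → y ≠ 0 → deg (x * y) = deg x + deg y)
    (hadd : ∀ x y : R, x ≠ 0 → y ≠ 0 → x + y ≠ 0 → deg (x + y) ≤ max (deg x) (deg y))
    (Γ : Subgroup (Matrix.GeneralLinearGroup (Fin 2) R))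
    (h : (∀ H : Subgroup (Matrix.GeneralLinearGroup (Fin 2) R),
        (∀ g ∈ H, g.val.det = 1 ∧ ∃ u : Rˣ, ∃ γ ∈ Γ, g.val = (u : R) • γ.val) →
        (∃ n : ℕ, ∀ g ∈ H, ∀ i j, deg (g.val i j) ≤ n) → C H) ∨
      ((∀ x : R, x ≠ 0 → deg x = 0 → IsUnit x) ∧
        ∃ (L : Type) (_ : Field L) (_ : R →+* L), C (Matrix.SpecialLinearGroup (Fin 2) L) ∨
          ∃ (k₀ : Type) (_ : Field k₀) (_ : Algebra k₀ L), Algebra.IsAlgebraic k₀ L ∧
            (Finite k₀ ∨ ∀ m : ℕ, C (Matrix.GeneralLinearGroup (Fin m) k₀)))) :
    C Γ :=
  Pool.Agent.J4.H41.GT.final C hC hM hA R deg hmul hadd Γ h

end Pool.Agent.Results.MP_8f66f0_al.DegreeFunctionGLTwo
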