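import Pool.Agent.J4.H41.PA.Fin

/-!
# Groups of polynomial automorphisms of the plane are Farrell-Jones groups

`C` is any class of groups with the closure properties `ClosedE C` (subgroups, finite and free products,
overgroups of finite index, directed colimits, the extension criterion) which contains the metabelian
groups and satisfies `AcylF C`: a finitely generated group that acts on a tree without inversions, such
that for some `k` and `n` the pointwise stabilizers of the paths of length at least `k` have at most `n`
elements, is in `C` if the vertex stabilizers are in `C`. All this is known for the class of the groups
whose wreath products with finite groups satisfy the K- and L-theoretic Farrell-Jones conjecture with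
coefficients (`AcylF` is a theorem of Knopf, metabelian groups are a theorem of Wegner); this class also
contains the groups `GL_m(ℚ)` (Rüping), and the Whitehead groups of its torsion-free members vanish.

Let `K` be a field of characteristic zero. A group `Γ` of automorphisms of the polynomial ring `K[x, y]`
is in `C` if its subgroups that are conjugate, in the automorphism group of `K[x, y]`, to groups of
affine automorphisms are in `C`. In particular the full automorphism group of `K[x, y]`
is in `C` if (and only if) `GL_2(K)` is in `C`. This is so for the fields `K` which are algebraic over
`ℚ`, if `C` contains the groups `GL_m(ℚ)`. So the Whitehead group of every torsion-free group of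
automorphisms of the affine plane over the algebraic numbers vanishes.

Outline of the proof.

* By Jung's theorem (proved in the library for algebraically closed fields, here for all fields of
  characteristic zero) the affine group `A` and the triangular group `E` generate the automorphism group.
  The graph of the cosets of `A` and `E` is a tree: the degree gives a height function on the vertices
  for which each vertex has at most one neighbour which is not higher.
* If an automorphism fixes a path of seven vertices whose middle vertex is of type `A`, it is conjugate to
  `(x, y) ↦ (αx + γ, δy + ε)`. The two ends of the path give `α = δ^m`, `δ = α^m'` with `m, m' ≥ 2`, and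
  that `ε` and `γ` vanish if `α` and `δ` are `1`. So the pointwise stabilizer of the path
  embeds in the group of the roots of unity of `K`, and the action is
  acylindrical (with finite stabilizers of long paths) if `K` contains only finitely many roots of unity.
* A finitely generated group of automorphisms of `K[x, y]` is defined over a finitely generated field
  `L`, and such a field contains only finitely many roots of unity: a root of unity of order `m` has
  degree `φ(m)` over the purely transcendental subextension over which `L` is finite.
  The group acts on the tree over `L`, so it is in `C`. Now take the directed union.
-/

set_option autoImplicit false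

namespace Pool.Agent.Results.MP_8f66f0_al.PlaneAutomorphisms

open MvPolynomial
open Pool.Agent.Y110.FJ (ClosedE)
open Pool.Agent.N509.TX (AcylF)

/-- Let `C` be a class of groups as above, `K` a field of characteristic zero, and let `Γ` be a group of
automorphisms of `K[x, y]`. Suppose that the subgroups `H` of `Γ` for which some conjugate `g⁻¹ H g` consists
of affine automorphisms (the images of `x` and `y` are of degree at most one) are in `C`, or that `GL_2(K)` is
in `C`, or that `K` is algebraic over `ℚ` and all `GL_m(ℚ)` are in `C`. Then `Γ` is in `C`. -/
theorem result (C : ∀ (G : Type) [Group G], Prop) (hC : ClosedE C)
    (hM : ∀ (G : Type) [Group G], derivedSeries G 2 = ⊥ → C G) (hA : AcylF C)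
    (K : Type) [Field K] [CharZero K]
    (Γ : Subgroup (MvPolynomial (Fin 2) K ≃ₐ[K] MvPolynomial (Fin 2) K))
    (hΓ : (∀ (g : MvPolynomial (Fin 2) K ≃ₐ[K] MvPolynomial (Fin 2) K)
        (H : Subgroup (MvPolynomial (Fin 2) K ≃ₐ[K] MvPolynomial (Fin 2) K)), H ≤ Γ →
        (∀ h ∈ H, ∀ i : Fin 2, ((g⁻¹ * h * g) (X i)).totalDegree ≤ 1) → C H) ∨
      C (Matrix.GeneralLinearGroup (Fin 2) K) ∨
      ((∀ m : ℕ, C (Matrix.GeneralLinearGroup (Fin m) ℚ)) ∧ Algebra.IsAlgebraic ℚ K)) : C Γ :=
  Pool.Agent.J4.H41.PA.final C hC hM hA K Γ hΓ

end Pool.Agent.Results.MP_8f66f0_al.PlaneAutomorphisms
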