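import Pool.Agent.J4.H89.PV.Cay

/-!
# Verbal quotients of free normal subgroups are Farrell-Jones groups

`C` is any class of groups with the closure properties `ClosedE C` (it contains `ℤ` and is closed under
subgroups, finite products, free products, overgroups of finite index, directed colimits and satisfies the
extension criterion). All this is known for the class of the groups that satisfy the full Farrell–Jones
conjecture, and the Whitehead groups of the torsion-free members of this class vanish.

Let `V` be a variety of groups, given by a set `W` of laws, such that the `V`-free groups of finite rank are in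
`C`. For instance `V` may be the variety of the nilpotent groups of class `c`, of the groups of exponent `n` or of
the groups with the law `[x ^ n, y] = 1` for a large odd number `n`; in the last case the `V`-free groups
are torsion-free and not solvable. Let `N` be a normal subgroup of a group `G`, and let `G` act on a tree such that
`N` acts freely (so `N` is a free group); for instance `G` may be free and `N` any normal subgroup, or `G` the
fundamental group of a graph of groups and `N` the kernel of a homomorphism which is injective on the vertex
groups. Let `V(N)` be the verbal subgroup.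

* If `G / N` is in `C`, then `G / V(N)` is in `C`.
* If `G` is torsion-free (`G / N` may have torsion), the `V`-free groups of finite rank are torsion-free and `V`
  contains the abelian groups, then `G / V(N)` is torsion-free.
* The varieties whose free groups are in `C` are closed under the product of varieties.

Outline of the proof. `Q = G / N` acts on the set `Ω` of the orbits of `N` on the pairs of vertices. Let `(u, v)`
also denote the corresponding basis element of the free group `F(Ω)`. The products of the `(u, v) (v, u)⁻¹` along the paths
of the tree define an embedding of `G` in `F(Ω) ⋊ Q`. Since `N` acts freely, it has a coordinate function on the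
vertices and there is a homomorphism from `F(Ω)` to `N` which maps the element of each path to the difference of the
coordinates of its ends; it is a retraction to `N`. So `V(N) = N ∩ V(F(Ω))`, and `G / V(N)` embeds in
`(F(Ω) / V(F(Ω))) ⋊ Q`. Here `Q` acts by permutations of the basis and every element depends on finitely many
elements of the basis, so that this group is in `C` (theorem `Q30.FJ.nom` of the starting library). If
`g ^ k` is in `V(N)` and `G` is torsion-free, then `M = N ⟨g⟩` acts freely on the tree, so it is a retract
of a free group and its abelianization is torsion-free; hence `g` is in `[M, M]`, and so in `N`.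
-/

set_option autoImplicit false

namespace Pool.Agent.Results.MP_8f66f0_al.VerbalQuotients

open Pool.Agent.Y110.FJ (ClosedE)
open Pool.Agent.J4.H89.PV

theorem result (C : ∀ (G : Type) [Group G], Prop) (hC : ClosedE C) (W : Set (FreeGroup ℕ))
    (hW : ∀ n : ℕ, C (FreeGroup (Fin n) ⧸ verbal W (FreeGroup (Fin n)))) :
    (∀ (G V : Type) [Group G] [MulAction G V] (T : SimpleGraph V), T.IsTree →
      (∀ (g : G) (u v : V), T.Adj u v → T.Adj (g • u) (g • v)) →
      ∀ (N : Subgroup G) [N.Normal], FreeOn T N →
        (C (G ⧸ N) → C (G ⧸ (verbal W N).map N.subtype)) ∧
        (W ⊆ commutator (FreeGroup ℕ) →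
          (∀ n : ℕ, TF (FreeGroup (Fin n) ⧸ verbal W (FreeGroup (Fin n)))) →
          TF G → TF (G ⧸ (verbal W N).map N.subtype))) ∧
    (∀ (X : Type) (N : Subgroup (FreeGroup X)) [N.Normal],
        (C (FreeGroup X ⧸ N) → C (FreeGroup X ⧸ (verbal W N).map N.subtype)) ∧
        (W ⊆ commutator (FreeGroup ℕ) →
          (∀ n : ℕ, TF (FreeGroup (Fin n) ⧸ verbal W (FreeGroup (Fin n)))) →
          TF (FreeGroup X ⧸ (verbal W N).map N.subtype))) ∧
    (∀ U : Set (FreeGroup ℕ), (∀ n : ℕ, C (FreeGroup (Fin n) ⧸ verbal U (FreeGroup (Fin n)))) →
      ∀ X : Type, C (FreeGroup X ⧸
        (verbal W (verbal U (FreeGroup X))).map (verbal U (FreeGroup X)).subtype)) := by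
  refine ⟨?_, ?_, ?_⟩
  · intro G V _ _ T hT hact N _ hN
    exact ⟨fun hQ => main_mem W hC hW hT hact N hN hQ,
      fun h1 h2 h3 => main_TF W hT hact N hN h1 h2 h3⟩
  · intro X N _
    exact ⟨fun hQ => main_mem W hC hW (cayX_tree X) (cayX_act X) N (cayX_free X N) hQ,
      fun h1 h2 => main_TF W (cayX_tree X) (cayX_act X) N (cayX_free X N) h1 h2 (free_TF X)⟩
  · intro U hU X
    exact main_mem W hC hW (cayX_tree X) (cayX_act X) _ (cayX_free X _)
      (vf_mem U hC.base hU X)

end Pool.Agent.Results.MP_8f66f0_al.VerbalQuotients
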